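import Pool.Agent.H30.FCB.StE
import Pool.Agent.H30.FCB.Basic

/-!
Module KAPP: the relation between the monomials of the equation, and its partial derivatives.
-/

open MvPolynomial

namespace FCB

namespace KAPP

lemma prod_CX {M : Type} [CommMonoid M] (f : CX → M) :
    ∏ j, f j = (∏ i, f (.t i)) * ((∏ j, f (.y j)) *
      (f .z * (f .w * (f .v * (f .a * (f .b * f .x)))))) :=
  sum_CX (M := Additive M) f

/-- a point of `X` with nonzero coordinates -/
noncomputable def pt : CX → ℂ
  | .t _ => 1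
  | .y j => if j = 0 then -1 / 2 else 1
  | .z => 1
  | .w => 1
  | .v => 1
  | .a => 1
  | .b => 1
  | .x => 1

lemma ev_FX : aeval pt FX = 0 := by
  simp [FX, GX, eP, pt]
  norm_num

lemma ker_le : ∀ p ∈ Ideal.span {FX}, aeval pt p = 0 := by
  intro p hp
  have h1 : Ideal.span {FX} ≤ RingHom.ker (aeval pt : MvPolynomial CX ℂ →ₐ[ℂ] ℂ) := by
    rw [Ideal.span_le]
    intro q hq
    rw [Set.mem_singleton_iff] at hq
    subst hq
    exact ev_FX
  exact h1 hp

lemma pt_ne (j : CX) : pt j ≠ 0 := by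
  cases j with
  | y j =>
    simp only [pt]
    split_ifs <;> norm_num
  | _ => simp [pt]

lemma X_ne (j : CX) : DX.X j ≠ 0 := by
  intro h
  have h1 : (X j : MvPolynomial CX ℂ) ∈ Ideal.span {FX} := Ideal.Quotient.eq_zero_iff_mem.1 h
  have h2 := ker_le _ h1
  rw [aeval_X] at h2
  exact pt_ne j h2

/-- natural exponents of the equation -/
def ex (k : Fin 6) : CX → ℕ :=
  match k with
  | 0 => Pi.single .x 2
  | 1 => Pi.single .z 1 + Pi.single .a 1 + Pi.single .b 1
  | 2 => Pi.single (.y 0) 1 + Pi.single (.y 1) 1 + Pi.single .w 2 + Pi.single .a 2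
  | 3 => Pi.single (.y 0) 1 + Pi.single (.y 1) 1 + Pi.single .v 2 + Pi.single .b 2
  | 4 => Pi.single (.y 2) 2 + Pi.single .w 2 + Pi.single .a 2
  | 5 => Pi.single (.y 2) 2 + Pi.single .v 2 + Pi.single .b 2

lemma ex_cast (k : Fin 6) : (fun j => (ex k j : ℤ)) = expF k := by
  funext j
  have h : ∀ (i j : CX) (n : ℕ), (((Pi.single i n : CX → ℕ) j : ℕ) : ℤ) =
      (Pi.single i (n : ℤ) : CX → ℤ) j := by
    intro i j n
    rw [Pi.single_apply, Pi.single_apply]
    split_ifs <;> simp
  fin_cases k <;> simp [ex, expF, h]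

lemma FX_eq {A : Type} [CommRing A] [Algebra ℂ A] (g : CX → A) :
    aeval g FX = ∑ k, cF k • ∏ j, g j ^ ex k j := by
  have h : ∀ k, ∏ j, g j ^ ex k j = (∏ i, g (.t i) ^ ex k (.t i)) *
      ((∏ j, g (.y j) ^ ex k (.y j)) *
      (g .z ^ ex k .z * (g .w ^ ex k .w * (g .v ^ ex k .v * (g .a ^ ex k .a *
        (g .b ^ ex k .b * g .x ^ ex k .x)))))) := fun k => prod_CX _
  simp only [h, FX, GX, eP, map_add, map_sub, map_mul, map_pow, aeval_X, map_ofNat]
  simp only [Fin.sum_univ_succ, Fin.prod_univ_succ, ex, cF]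
  have h2 : algebraMap ℂ A 2 = 2 := map_ofNat (algebraMap ℂ A) 2
  simp [Algebra.smul_def, h2]
  ring

lemma wt_ex (k : Fin 6) : DX.wt (ex k) = ![0, 0, 0, 0, 2] := by
  funext l
  simp only [Cox.wt, sum_CX]
  simp only [DX, degX, Pi.add_apply, Finset.sum_apply, Pi.smul_apply, Fin.sum_univ_succ]
  fin_cases k <;> fin_cases l <;> simp [ex]

lemma uni (c : ChX) (hc : c.2.2 ≠ 4) (j : CX) (hj : j ∈ uX c) :
    sigmaX c (degX j) = Pi.single j 1 := by
  obtain ⟨i, l, k⟩ := c
  funext m
  have hk0 : ∀ k : Fin 5, k ≠ 4 → k = 0 ∨ k = 1 ∨ k = 2 ∨ k = 3 := by decide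
  have hk : k = 0 ∨ k = 1 ∨ k = 2 ∨ k = 3 := hk0 k hc
  rcases hk with rfl | rfl | rfl | rfl <;>
  · simp only [uX, Finset.mem_union, Finset.mem_insert, Finset.mem_singleton] at hj
    rcases hj with (rfl | rfl) | rfl | rfl | rfl <;> (try fin_cases l) <;> cases m <;>
      simp [sigmaX, vecX, degX, tw, Pi.single_apply]

section

variable [IsDomain RX]

lemma xF_ne (j : CX) : algebraMap RX (FractionRing RX) (DX.X j) ≠ 0 := by
  rw [Ne, FaithfulSMul.algebraMap_eq_zero_iff]
  exact X_ne j

lemma mZ_add (m n : CX → ℤ) : DX.monoZ (m + n) = DX.monoZ m * DX.monoZ n := by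
  simp only [Cox.monoZ, Pi.add_apply]
  rw [← Finset.prod_mul_distrib]
  exact Finset.prod_congr rfl fun j _ => zpow_add₀ (xF_ne j) _ _

lemma mZ_zero : DX.monoZ 0 = 1 := by simp [Cox.monoZ]

lemma mZ_neg_mul (m : CX → ℤ) : DX.monoZ (-m) * DX.monoZ m = 1 := by
  rw [← mZ_add, neg_add_cancel, mZ_zero]

lemma mZ_nsmul (m : CX → ℤ) (k : ℕ) : DX.monoZ (k • m) = DX.monoZ m ^ k := by
  induction k with
  | zero => rw [zero_smul, mZ_zero, pow_zero]
  | succ k ih => rw [succ_nsmul, mZ_add, ih, pow_succ]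

lemma mZ_sum (S : Finset CX) (f : CX → CX → ℤ) :
    DX.monoZ (∑ j ∈ S, f j) = ∏ j ∈ S, DX.monoZ (f j) := by
  classical
  induction S using Finset.induction_on with
  | empty => simp [mZ_zero]
  | insert a S ha ih => rw [Finset.sum_insert ha, Finset.prod_insert ha, mZ_add, ih]

/-- `co c j` times its unit monomial. -/
lemma co_mul (c : ChX) (j : CX) : DX.co c j * DX.monoZ (sigmaX c (degX j)) =
    algebraMap RX (FractionRing RX) (DX.X j) := by
  rw [Cox.co, mul_assoc]
  have h : DX.σ c (DX.deg j) = sigmaX c (degX j) := rfl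
  rw [h, mZ_neg_mul, mul_one]

lemma co_unit (c : ChX) (hc : c.2.2 ≠ 4) (j : CX) (hj : j ∈ uX c) : DX.co c j = 1 := by
  have h1 := co_mul c j
  rw [uni c hc j hj] at h1
  have h2 : DX.monoZ (Pi.single j 1) = algebraMap RX (FractionRing RX) (DX.X j) := by
    rw [Cox.monoZ_single, zpow_one]
  rw [h2] at h1
  exact mul_right_cancel₀ (xF_ne j) (by rw [h1, one_mul])

/-- A monomial of degree `g` is the product of the `co` times `X^{σ(g)}`. -/
lemma prod_co (c : ChX) (e : CX → ℕ) :
    (∏ j, DX.co c j ^ e j) * DX.monoZ (sigmaX c (DX.wt e)) =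
      DX.monoZ (fun j => (e j : ℤ)) := by
  have h1 : sigmaX c (DX.wt e) = ∑ j, e j • sigmaX c (degX j) := by
    have : DX.wt e = ∑ j, e j • degX j := by
      rw [Cox.wt]
      refine Finset.sum_congr rfl fun j _ => ?_
      rw [natCast_zsmul]
      rfl
    rw [this]
    change sgX c _ = ∑ j, e j • sgX c (degX j)
    rw [map_sum]
    refine Finset.sum_congr rfl fun j _ => ?_
    rw [map_nsmul]
  rw [h1, mZ_sum, ← Finset.prod_mul_distrib, Cox.monoZ_cast, Cox.mono, map_prod]
  refine Finset.prod_congr rfl fun j _ => ?_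
  rw [mZ_nsmul, ← mul_pow, co_mul, map_pow]

/-- derivations of products of powers -/
lemma der_prod {A : Type} [CommRing A] [Algebra ℂ A] (E : Derivation ℂ A A) (g : CX → A)
    (i : CX) (hg : ∀ j, E (g j) = if j = i then g j else 0) (e : CX → ℕ) :
    E (∏ j, g j ^ e j) = (e i : A) * ∏ j, g j ^ e j := by
  classical
  have key : ∀ S : Finset CX, E (∏ j ∈ S, g j ^ e j) =
      (if i ∈ S then (e i : A) else 0) * ∏ j ∈ S, g j ^ e j := by
    intro S
    induction S using Finset.induction_on with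
    | empty => simp
    | insert a S ha ih =>
      rw [Finset.prod_insert ha, Derivation.leibniz, ih, Derivation.leibniz_pow, hg]
      by_cases hai : a = i
      · subst hai
        rw [if_pos rfl, if_neg ha, if_pos (Finset.mem_insert_self _ _)]
        rcases Nat.eq_zero_or_pos (e a) with h0 | h0
        · rw [h0]; simp
        · obtain ⟨q, hq⟩ : ∃ q, e a = q + 1 := ⟨e a - 1, by omega⟩
          rw [hq]
          simp only [smul_eq_mul, nsmul_eq_mul, Nat.add_sub_cancel, pow_succ]
          ring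
      · rw [if_neg hai]
        have : (i ∈ insert a S) ↔ i ∈ S := by
          rw [Finset.mem_insert]
          constructor
          · rintro (h | h)
            · exact absurd h.symm hai
            · exact h
          · exact Or.inr
        simp only [this, smul_eq_mul, mul_zero, nsmul_zero, add_zero]
        ring
  have := key Finset.univ
  rwa [if_pos (Finset.mem_univ i)] at this

end

end KAPP

open KAPP in
theorem kapp : S_KAPP := by
  classical
  intro _
  have hmono : ∀ k, DX.monoZ (expF k) = ∏ j, algebraMap RX (FractionRing RX) (DX.X j) ^ ex k j := by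
    intro k
    rw [← ex_cast, Cox.monoZ_cast, Cox.mono, map_prod]
    exact Finset.prod_congr rfl fun j _ => map_pow _ _ _
  refine ⟨?_, ?_⟩
  · simp only [hmono]
    rw [← FX_eq]
    have h1 : (aeval fun j => algebraMap RX (FractionRing RX) (DX.X j)) FX =
        algebraMap RX (FractionRing RX) (Ideal.Quotient.mk _ FX) := by
      have h2 : (aeval fun j => algebraMap RX (FractionRing RX) (DX.X j)) =
          (IsScalarTower.toAlgHom ℂ RX (FractionRing RX)).comp
            (Ideal.Quotient.mkₐ ℂ (Ideal.span {FX})) := by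
        apply MvPolynomial.algHom_ext
        intro j
        rw [aeval_X]
        rfl
      rw [h2]
      rfl
    have h2 : Ideal.Quotient.mk (Ideal.span {FX}) FX = 0 :=
      Ideal.Quotient.eq_zero_iff_mem.2 (Ideal.subset_span (Set.mem_singleton FX))
    rw [h1, h2, map_zero]
  · intro c hc i
    set g : CX → MvPolynomial {j : CX // j ∉ uX c} ℂ :=
      fun j => if h : j ∈ uX c then (1 : MvPolynomial {j : CX // j ∉ uX c} ℂ) else X ⟨j, h⟩ with hg
    set E : Derivation ℂ (MvPolynomial {j : CX // j ∉ uX c} ℂ)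
      (MvPolynomial {j : CX // j ∉ uX c} ℂ) := (X i : MvPolynomial _ ℂ) • pderiv i with hE
    have hEg : ∀ j, E (g j) = if j = i.1 then g j else 0 := by
      intro j
      simp only [hE, hg, Derivation.smul_apply, smul_eq_mul]
      by_cases hj : j ∈ uX c
      · rw [dif_pos hj]
        have : j ≠ i.1 := by rintro rfl; exact i.2 hj
        rw [if_neg this]
        simp
      · rw [dif_neg hj]
        by_cases hji : j = i.1
        · subst hji
          rw [if_pos rfl]
          simp
        · rw [if_neg hji, pderiv_X_of_ne, mul_zero]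
          intro h
          exact hji (congrArg Subtype.val h)
    set θ : MvPolynomial {j : CX // j ∉ uX c} ℂ →ₐ[ℂ] FractionRing RX :=
      aeval (fun j : {j : CX // j ∉ uX c} => DX.co c j.1) with hθ
    have hθg : ∀ j, θ (g j) = DX.co c j := by
      intro j
      simp only [hθ, hg]
      by_cases hj : j ∈ uX c
      · rw [dif_pos hj, map_one, co_unit c hc j hj]
      · rw [dif_neg hj, aeval_X]
    have hF : FXc c = ∑ k, cF k • ∏ j, g j ^ ex k j := FX_eq g
    have hEF : (X i : MvPolynomial _ ℂ) * pderiv i (FXc c) =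
        ∑ k, cF k • ((ex k i.1 : MvPolynomial {j : CX // j ∉ uX c} ℂ) * ∏ j, g j ^ ex k j) := by
      have h1 : (X i : MvPolynomial _ ℂ) * pderiv i (FXc c) = E (FXc c) := rfl
      rw [h1, hF, map_sum]
      refine Finset.sum_congr rfl fun k _ => ?_
      rw [Derivation.map_smul, der_prod E g i.1 hEg]
    have h3 := congrArg θ hEF
    rw [map_mul, map_sum, hθ, aeval_X, ← hθ] at h3
    rw [h3, Finset.sum_mul]
    refine Finset.sum_congr rfl fun k _ => ?_
    rw [map_smul, map_mul, map_natCast, map_prod]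
    simp only [map_pow, hθg]
    rw [smul_mul_assoc, mul_assoc]
    have h4 := prod_co c (ex k)
    rw [wt_ex, ex_cast] at h4
    rw [h4]
    congr 2
    rw [← ex_cast]
    simp

end FCB
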