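import Pool.Agent.H30.FCB.StE
import Pool.Agent.H30.FCB.Basic

/-!
Module ORIG: the origins of the charts `(0, 0, 0)`.
-/

open MvPolynomial

namespace FCB

namespace ORIG

/-- the point of `X` -/
def ptX : CX → ℂ
  | .t i => if i = 0 then 1 else 0
  | .y j => if j = 0 then 1 else 0
  | .z => 0
  | .w => 1
  | .v => 1
  | .a => 1
  | .b => 0
  | .x => 0

/-- the point of `Y` -/
def ptY : CY → ℂ
  | .t i => if i = 0 then 1 else 0
  | .y j => if j = 0 then 1 else 0
  | .z => 0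
  | .o => 1

lemma ev_FX : aeval ptX FX = 0 := by
  simp [FX, GX, eP, ptX]

lemma ker_le : ∀ p ∈ Ideal.span {FX}, aeval ptX p = 0 := by
  intro p hp
  have h1 : Ideal.span {FX} ≤ RingHom.ker (aeval ptX : MvPolynomial CX ℂ →ₐ[ℂ] ℂ) := by
    rw [Ideal.span_le]
    intro q hq
    rw [Set.mem_singleton_iff] at hq
    subst hq
    exact ev_FX
  exact h1 hp

/-- the evaluation of the Cox ring of `X` -/
noncomputable def epsX : RX →ₐ[ℂ] ℂ :=
  Ideal.Quotient.liftₐ (Ideal.span {FX}) (aeval ptX) ker_le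

lemma epsX_X (j : CX) : epsX (DX.X j) = ptX j := by
  change aeval ptX (X j) = ptX j
  exact aeval_X _ _

lemma ptX_one : ∀ j ∈ uX (0, 0, 0), ptX j = 1 := by
  intro j hj
  cases j <;> simp_all [uX, ptX]

lemma ptX_zero : ∀ j, j ∉ uX (0, 0, 0) → ptX j = 0 := by
  intro j hj
  cases j <;> simp_all [uX, ptX]

lemma ptY_one : ∀ j ∈ uY (0, 0, 0), ptY j = 1 := by
  intro j hj
  cases j <;> simp_all [uY, ptY]

lemma ptY_zero : ∀ j, j ∉ uY (0, 0, 0) → ptY j = 0 := by
  intro j hj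
  cases j <;> simp_all [uY, ptY]

end ORIG

open ORIG in
theorem orig : S_ORIG := by
  refine ⟨⟨epsX, ?_, ?_, ?_⟩, ⟨aeval ptY, ?_, ?_, ?_⟩⟩
  · intro j hj
    rw [epsX_X]
    exact ptX_one j hj
  · intro j hj
    rw [epsX_X]
    exact ptX_zero j hj
  · change ∀ j ∈ uX (0, 0, 0), ∀ i, sigmaX (0, 0, 0) (degX j) i = if i = j then 1 else 0
    decide
  · intro j hj
    change aeval ptY (X j) = _
    rw [aeval_X]
    exact ptY_one j hj
  · intro j hj
    change aeval ptY (X j) = _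
    rw [aeval_X]
    exact ptY_zero j hj
  · change ∀ j ∈ uY (0, 0, 0), ∀ i, sigmaY (0, 0, 0) (degY j) i = if i = j then 1 else 0
    decide

end FCB
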