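import Pool.Agent.H30.FCB.StE
import Pool.Agent.H30.FCB.Basic

/-!
Module PCOV: the charts cover the variety.
-/

open AlgebraicGeometry CategoryTheory

namespace FCB

namespace PCOV

variable {R ι C : Type} {r : ℕ} [CommRing R] [Algebra ℂ R] [Fintype ι] (D : Cox R ι C r)

/-- homogeneous element of the Veronese ring -/
noncomputable def elt (m : ℕ) (b : R) (hb : b ∈ D.gr (m • D.L)) : D.ver :=
  ⟨Polynomial.monomial m b, by
    intro k
    rw [Polynomial.coeff_monomial]
    split_ifs with h1
    · subst h1
      exact hb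
    · exact Submodule.zero_mem _⟩

lemma elt_mul {m n : ℕ} {a b : R} (ha : a ∈ D.gr (m • D.L)) (hb : b ∈ D.gr (n • D.L))
    (hab : a * b ∈ D.gr ((m + n) • D.L)) :
    elt D (m + n) (a * b) hab = elt D m a ha * elt D n b hb := by
  apply Subtype.ext
  simp [elt, Polynomial.monomial_mul_monomial]

lemma elt_add {m : ℕ} {a b : R} (ha : a ∈ D.gr (m • D.L)) (hb : b ∈ D.gr (m • D.L))
    (hab : a + b ∈ D.gr (m • D.L)) :
    elt D m (a + b) hab = elt D m a ha + elt D m b hb := by
  apply Subtype.ext
  simp [elt]

lemma elt_eq {m : ℕ} {a b : R} (ha : a ∈ D.gr (m • D.L)) (hb : b ∈ D.gr (m • D.L)) (h : a = b) :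
    elt D m a ha = elt D m b hb := by
  subst h; rfl

/-- the set of elements vanishing at `x` -/
def van (I : Ideal D.ver) : Set R :=
  {a | ∀ g, a ∈ D.gr g → ∀ (m : ℕ) (s : R), s ∈ D.gr (m • D.L - g) →
    ∀ h : a * s ∈ D.gr (m • D.L), elt D m (a * s) h ∈ I}

lemma elt_zero (m : ℕ) (a : R) (ha : a ∈ D.gr (m • D.L)) (h0 : a = 0) : elt D m a ha = 0 := by
  subst h0
  apply Subtype.ext
  simp [elt]

end PCOV

open PCOV in
theorem pcov (hHUNI : S_HUNI) : S_PCOV := by
  intro R ι C r _ _ _ _ D h x
  obtain ⟨-, -, huniq⟩ := hHUNI R ι C r D h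
  set I : Ideal D.ver := x.asHomogeneousIdeal.toIdeal with hI
  have hprime : I.IsPrime := x.isPrime
  -- a homogeneous element of positive degree outside
  have key : ∃ m : ℕ, 0 < m ∧ ∃ n : ι → ℕ, ∃ hn : D.wt n = m • D.L,
      elt D m (D.mono n) (hn ▸ D.mono_mem n) ∉ I := by
    by_contra hcon
    push Not at hcon
    apply x.not_irrelevant_le
    intro P hP
    rw [HomogeneousIdeal.mem_irrelevant_iff] at hP
    have hP0 : (P : Polynomial R).coeff 0 = 0 := by
      have h1 : (GradedRing.proj D.verGr 0) P = (D.comp P 0 : D.ver) := by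
        rw [GradedRing.proj_apply]
        change ((D.dec P) 0 : D.ver) = _
        classical
        rw [D.dec_eq P ((P : Polynomial R).support ∪ {0}) Finset.subset_union_left]
        rw [DFinsupp.finsetSum_apply, Finset.sum_eq_single 0]
        · rw [DirectSum.of_eq_same]
        · intro b _ hb
          rw [DirectSum.of_eq_of_ne _ _ _ (Ne.symm hb)]
        · intro h0
          simp at h0
      rw [h1] at hP
      have := congrArg (fun Q : D.ver => (Q : Polynomial R).coeff 0) hP
      simpa [Cox.comp] using this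
    have hmon : ∀ m : ℕ, 0 < m → ∀ b (hb : b ∈ D.gr (m • D.L)), elt D m b hb ∈ I := by
      intro m hm b hb
      have : ∀ b ∈ D.gr (m • D.L), ∃ hb : b ∈ D.gr (m • D.L), elt D m b hb ∈ I := by
        intro b hb
        induction hb using Submodule.span_induction with
        | mem b hb =>
          obtain ⟨n, hn, rfl⟩ := hb
          exact ⟨_, hcon m hm n hn⟩
        | zero => exact ⟨Submodule.zero_mem _, by rw [elt_zero D m _ _ rfl]; exact I.zero_mem⟩
        | add a b _ _ ha hb =>
          obtain ⟨ha1, ha2⟩ := ha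
          obtain ⟨hb1, hb2⟩ := hb
          exact ⟨Submodule.add_mem _ ha1 hb1, by
            rw [elt_add D ha1 hb1]; exact I.add_mem ha2 hb2⟩
        | smul z a _ ha =>
          obtain ⟨ha1, ha2⟩ := ha
          refine ⟨Submodule.smul_mem _ z ha1, ?_⟩
          have e : elt D m (z • a) (Submodule.smul_mem _ z ha1) = z • elt D m a ha1 := by
            apply Subtype.ext
            simp [elt]
          rw [e, Algebra.smul_def]
          exact I.mul_mem_left _ ha2
      obtain ⟨_, h2⟩ := this b hb
      exact h2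
    have hsum : P = ∑ m ∈ (P : Polynomial R).support,
        elt D m ((P : Polynomial R).coeff m) (P.2 m) := by
      apply Subtype.ext
      rw [AddSubmonoidClass.coe_finsetSum]
      exact Polynomial.as_sum_support (P : Polynomial R)
    change P ∈ I
    rw [hsum]
    refine Ideal.sum_mem _ fun m hm => hmon m ?_ _ _
    rw [Polynomial.mem_support_iff] at hm
    rcases Nat.eq_zero_or_pos m with rfl | h0
    · exact absurd hP0 hm
    · exact h0
  set V := van D I with hV
  have hvan : D.IsVan V := by
    refine ⟨?_, ?_, ?_, ?_, ?_⟩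
    · intro g _ m s _ h1
      rw [elt_zero D m _ _ (zero_mul s)]
      exact I.zero_mem
    · intro g k a b ha hb hab
      by_contra hcon
      push Not at hcon
      obtain ⟨h1, h2⟩ := hcon
      simp only [hV, van, Set.mem_ofPred_eq, not_forall] at h1 h2
      obtain ⟨g', hg', m, s, hs, h3, h4⟩ := h1
      obtain ⟨k', hk', n, t, ht, h5, h6⟩ := h2
      have ha0 : a ≠ 0 := by
        rintro rfl
        apply h4
        rw [elt_zero D m _ _ (zero_mul s)]
        exact I.zero_mem
      have hb0 : b ≠ 0 := by
        rintro rfl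
        apply h6
        rw [elt_zero D n _ _ (zero_mul t)]
        exact I.zero_mem
      have e1 := huniq _ _ a ha hg' ha0
      have e2 := huniq _ _ b hb hk' hb0
      subst e1 e2
      have hst : s * t ∈ D.gr ((m + n) • D.L - (g + k)) := by
        have := D.mul_mem hs ht
        convert this using 2
        rw [add_smul]; abel
      have hfull : (a * b) * (s * t) ∈ D.gr ((m + n) • D.L) := by
        have := D.mul_mem h3 h5
        rw [add_smul]
        convert this using 1
        ring
      have h7 := hab (g + k) (D.mul_mem ha hb) (m + n) (s * t) hst hfull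
      have h8 : elt D (m + n) ((a * b) * (s * t)) hfull =
          elt D m (a * s) h3 * elt D n (b * t) h5 := by
        rw [← elt_mul D h3 h5 (by
          have := D.mul_mem h3 h5
          rwa [← add_smul] at this)]
        exact elt_eq D _ _ (by ring)
      rw [h8] at h7
      rcases hprime.mem_or_mem h7 with h9 | h9
      · exact h4 h9
      · exact h6 h9
    · intro g k a b ha hb haV g' hg' m s hs h1
      by_cases h0 : a * b = 0
      · rw [elt_zero D m _ _ (by rw [h0, zero_mul])]
        exact I.zero_mem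
      · have e := huniq _ _ (a * b) (D.mul_mem ha hb) hg' h0
        subst e
        have h2 : b * s ∈ D.gr (m • D.L - g) := by
          have := D.mul_mem hb hs
          convert this using 2
          abel
        have h3 : a * (b * s) ∈ D.gr (m • D.L) := by rwa [← mul_assoc]
        have h4 := haV g ha m (b * s) h2 h3
        rwa [elt_eq D h1 h3 (mul_assoc _ _ _)]
    · intro g a b ha hb haV hbV g' hg' m s hs h1
      by_cases h0 : a + b = 0
      · rw [elt_zero D m _ _ (by rw [h0, zero_mul])]
        exact I.zero_mem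
      · have e := huniq _ _ (a + b) (D.gr g |>.add_mem ha hb) hg' h0
        subst e
        have h2 : a * s ∈ D.gr (m • D.L) := by
          have := D.mul_mem ha hs
          convert this using 2
          abel
        have h3 : b * s ∈ D.gr (m • D.L) := by
          have := D.mul_mem hb hs
          convert this using 2
          abel
        rw [elt_eq D h1 (Submodule.add_mem _ h2 h3) (add_mul _ _ _), elt_add D h2 h3]
        exact I.add_mem (haV g ha m s hs h2) (hbV g hb m s hs h3)
    · obtain ⟨m, hm, n, hn, h1⟩ := key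
      refine ⟨m, hm, n, hn, ?_⟩
      intro h2
      apply h1
      have h3 : D.mono n ∈ D.gr (m • D.L) := hn ▸ D.mono_mem n
      have h4 : D.mono n * 1 ∈ D.gr (m • D.L) := by rwa [mul_one]
      have h5 := h2 (m • D.L) h3 m 1 (by rw [sub_self]; exact D.one_mem) h4
      rwa [elt_eq D h4 h3 (mul_one _)] at h5
  obtain ⟨c, hc⟩ := h.cover V hvan
  refine ⟨c, ?_⟩
  obtain ⟨m0, hm0, n0, hn0, hout⟩ := key
  -- the monomial is outside V
  have hone : (1 : R) ∉ V := by
    obtain ⟨m, hm, n, hn, h1⟩ := hvan.nonempty
    intro h2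
    apply h1
    have := hvan.ideal 0 (D.wt n) 1 (D.mono n) D.one_mem (D.mono_mem n) h2
    rwa [one_mul] at this
  have hpow : ∀ j ∈ D.u c, ∀ k : ℕ, D.X j ^ k ∉ V := by
    intro j hj k
    induction k with
    | zero => rwa [pow_zero]
    | succ k ih =>
      intro h1
      rw [pow_succ] at h1
      rcases hvan.mul _ _ _ _ (D.pow_mem (D.X_mem j) k) (D.X_mem j) h1 with h2 | h2
      · exact ih h2
      · exact hc j hj h2
  have hmono : D.mono (D.ν c) ∉ V := by
    classical
    have : ∀ S : Finset ι, (∏ j ∈ S, D.X j ^ D.ν c j) ∈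
        D.gr (∑ j ∈ S, D.ν c j • D.deg j) ∧ (∏ j ∈ S, D.X j ^ D.ν c j) ∉ V := by
      intro S
      induction S using Finset.induction_on with
      | empty => exact ⟨by simpa using D.one_mem, by simpa using hone⟩
      | insert j S hj ih =>
        rw [Finset.prod_insert hj, Finset.sum_insert hj]
        refine ⟨D.mul_mem (D.pow_mem (D.X_mem j) _) ih.1, ?_⟩
        intro h1
        rcases hvan.mul _ _ _ _ (D.pow_mem (D.X_mem j) _) ih.1 h1 with h2 | h2
        · by_cases h0 : D.ν c j = 0
          · rw [h0, pow_zero] at h2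
            exact hone h2
          · exact hpow j ((h.ν_supp c j).1 h0) _ h2
        · exact ih.2 h2
    exact (this Finset.univ).2
  simp only [hV, van, Set.mem_ofPred_eq, not_forall] at hmono
  obtain ⟨g, hg, m, s, hs, h3, h4⟩ := hmono
  have hne : D.mono (D.ν c) ≠ 0 := h.mono_ne _
  have e := huniq _ _ _ hg (D.mono_mem _) hne
  subst e
  rw [h.ν_wt c] at hs
  -- multiply by a power
  have hw : D.mono n0 ∈ D.gr (m0 • D.L) := hn0 ▸ D.mono_mem n0
  have hpow2 : ∀ N : ℕ, ∃ hN : D.mono n0 ^ N ∈ D.gr ((N * m0) • D.L),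
      elt D (N * m0) (D.mono n0 ^ N) hN ∉ I := by
    intro N
    induction N with
    | zero =>
      refine ⟨by simpa using D.one_mem, ?_⟩
      intro h1
      apply hprime.ne_top
      rw [Ideal.eq_top_iff_one]
      convert h1 using 1
      apply Subtype.ext
      simp [elt]
    | succ N ih =>
      obtain ⟨hN, h1⟩ := ih
      have h2 : D.mono n0 ^ N * D.mono n0 ∈ D.gr ((N * m0 + m0) • D.L) := by
        rw [add_smul]; exact D.mul_mem hN hw
      have h3 : elt D (N * m0 + m0) (D.mono n0 ^ N * D.mono n0) h2 ∉ I := by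
        rw [elt_mul D hN hw]
        intro h4
        rcases hprime.mem_or_mem h4 with h5 | h5
        · exact h1 h5
        · exact hout h5
      rw [pow_succ, Nat.succ_mul]
      exact ⟨h2, h3⟩
  obtain ⟨hN, hNout⟩ := hpow2 (D.d c)
  rw [Proj.mem_basicOpen]
  intro hcontra
  have hcontra' : D.verMono (D.ν c) (D.d c) (h.ν_wt c) ∈ I := hcontra
  obtain ⟨q, hq⟩ : ∃ q, m + D.d c * m0 = D.d c + q := by
    refine ⟨m + D.d c * m0 - D.d c, ?_⟩
    have : D.d c ≤ D.d c * m0 := Nat.le_mul_of_pos_right _ hm0
    omega
  have hν : D.mono (D.ν c) ∈ D.gr (D.d c • D.L) := by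
    rw [← h.ν_wt c]; exact D.mono_mem _
  have hsq : s * D.mono n0 ^ D.d c ∈ D.gr (q • D.L) := by
    have := D.mul_mem hs hN
    convert this using 2
    have h6 : (m + D.d c * m0) • D.L = (D.d c + q) • D.L := by rw [hq]
    rw [add_smul, add_smul] at h6
    rw [sub_add_eq_add_sub, h6]
    abel
  have h7 : elt D m (D.mono (D.ν c) * s) h3 * elt D (D.d c * m0) (D.mono n0 ^ D.d c) hN =
      elt D (D.d c) (D.mono (D.ν c)) hν * elt D q (s * D.mono n0 ^ D.d c) hsq := by
    apply Subtype.ext
    rw [MulMemClass.coe_mul, MulMemClass.coe_mul]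
    change Polynomial.monomial m (D.mono (D.ν c) * s) *
        Polynomial.monomial (D.d c * m0) (D.mono n0 ^ D.d c) =
      Polynomial.monomial (D.d c) (D.mono (D.ν c)) *
        Polynomial.monomial q (s * D.mono n0 ^ D.d c)
    rw [Polynomial.monomial_mul_monomial, Polynomial.monomial_mul_monomial, hq, mul_assoc]
  have h8 : elt D (D.d c) (D.mono (D.ν c)) hν * elt D q (s * D.mono n0 ^ D.d c) hsq ∈ I :=
    I.mul_mem_right _ hcontra'
  rw [← h7] at h8
  rcases hprime.mem_or_mem h8 with h9 | h9
  · exact h4 h9
  · exact hNout h9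

end FCB
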