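import Pool.Agent.H30.FCB.StE
import Pool.Agent.H30.FCB.Basic

/-!
Module PHIX: `phi` extends to the fraction fields and maps chart rings to chart rings.
-/

open MvPolynomial

namespace FCB

namespace PHIX

/-- a retraction on the level of polynomials -/
noncomputable def rt : CX → RY
  | .t i => X (.t i)
  | .y j => X (.y j)
  | .z => X .z
  | .w => X .o
  | .v => 1
  | .a => 0
  | .b => 0
  | .x => 0

lemma ev_FX : aeval rt FX = 0 := by
  simp [FX, GX, eP, rt]

lemma ker_le : ∀ p ∈ Ideal.span {FX}, aeval rt p = 0 := by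
  intro p hp
  have h1 : Ideal.span {FX} ≤ RingHom.ker (aeval rt : MvPolynomial CX ℂ →ₐ[ℂ] RY) := by
    rw [Ideal.span_le]
    intro q hq
    rw [Set.mem_singleton_iff] at hq
    subst hq
    exact ev_FX
  exact h1 hp

/-- the retraction -/
noncomputable def retr : RX →ₐ[ℂ] RY :=
  Ideal.Quotient.liftₐ (Ideal.span {FX}) (aeval rt) ker_le

lemma retr_X (j : CX) : retr (DX.X j) = rt j := by
  change aeval rt (X j) = rt j
  exact aeval_X _ _

lemma retr_phi (p : RY) : retr (phi p) = p := by
  have h : retr.comp phi = AlgHom.id ℂ RY := by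
    apply MvPolynomial.algHom_ext
    intro j
    rw [AlgHom.comp_apply, phi, aeval_X]
    cases j with
    | t i => simp [retr_X, rt]
    | y i => simp [retr_X, rt]
    | z => simp [retr_X, rt]
    | o => simp [retr_X, rt]
  exact congrArg (fun f : RY →ₐ[ℂ] RY => f p) h

lemma phi_inj : Function.Injective phi := by
  intro p q hpq
  rw [← retr_phi p, hpq, retr_phi]

/-- exponents -/
def pull (n : CY → ℕ) : CX → ℕ
  | .t i => n (.t i)
  | .y j => n (.y j)
  | .z => n .z
  | .w => n .o
  | .v => n .o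
  | .a => 0
  | .b => 0
  | .x => 0

/-- degrees -/
def gam (g : Fin 3 → ℤ) : Fin 5 → ℤ := ![g 0 - 4 * g 2, g 1 + 2 * g 2, g 2, g 2, 0]

lemma prod_CX {M : Type} [CommMonoid M] (f : CX → M) :
    ∏ j, f j = (∏ i, f (.t i)) * ((∏ j, f (.y j)) *
      (f .z * (f .w * (f .v * (f .a * (f .b * f .x)))))) :=
  sum_CX (M := Additive M) f

lemma prod_CY {M : Type} [CommMonoid M] (f : CY → M) :
    ∏ j, f j = (∏ i, f (.t i)) * ((∏ j, f (.y j)) * (f .z * f .o)) :=
  sum_CY (M := Additive M) f

lemma phi_mono (n : CY → ℕ) : phi (DY.mono n) = DX.mono (pull n) := by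
  rw [Cox.mono, Cox.mono, map_prod, prod_CX, prod_CY]
  simp only [map_pow, DY, phi, aeval_X, pull, pow_zero, mul_one, mul_pow]

lemma wt_pull (n : CY → ℕ) : DX.wt (pull n) = gam (DY.wt n) := by
  funext k
  rw [gam]
  simp only [Cox.wt, sum_CY, sum_CX]
  simp only [DX, DY, degX, degY, pull, Pi.add_apply, Finset.sum_apply, Pi.smul_apply,
    Fin.sum_univ_succ]
  fin_cases k <;> simp <;> ring

lemma phi_gr (g : Fin 3 → ℤ) (a : RY) (ha : a ∈ DY.gr g) : phi a ∈ DX.gr (gam g) := by
  induction ha using Submodule.span_induction with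
  | mem b hb =>
    obtain ⟨n, hn, rfl⟩ := hb
    rw [phi_mono]
    have hn' : DY.wt n = g := hn
    rw [← hn', ← wt_pull]
    exact DX.mono_mem _
  | zero => rw [map_zero]; exact Submodule.zero_mem _
  | add a b _ _ ha hb => rw [map_add]; exact Submodule.add_mem _ ha hb
  | smul z a _ ha => rw [map_smul]; exact Submodule.smul_mem _ _ ha

lemma pull_supp (c : ChX) (n : CY → ℕ) (hn : ∀ j, n j ≠ 0 → j ∈ uY (tau c)) :
    ∀ j, pull n j ≠ 0 → j ∈ uX c := by
  obtain ⟨i, k, l⟩ := c
  intro j hj
  have ht := fun m => hn (.t m)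
  have hy := fun m => hn (.y m)
  have hz := hn .z
  have ho := hn .o
  cases j <;> fin_cases l <;> simp_all [pull, tau, uY, uX] <;>
    first | exact ht _ hj | exact hy _ hj

end PHIX

open PHIX in
theorem phix : S_PHIX := by
  intro _ _
  have hinj : Function.Injective ((algebraMap RX (FractionRing RX)).comp phi.toRingHom) := by
    intro p q hpq
    apply phi_inj
    exact FaithfulSMul.algebraMap_injective RX (FractionRing RX) hpq
  refine ⟨IsFractionRing.lift hinj, ?_, ?_, ?_⟩
  · intro a
    exact IsFractionRing.lift_algebraMap hinj a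
  · intro z
    rw [IsScalarTower.algebraMap_apply ℂ RY (FractionRing RY),
      IsScalarTower.algebraMap_apply ℂ RX (FractionRing RX), IsFractionRing.lift_algebraMap]
    change algebraMap RX (FractionRing RX) (phi (algebraMap ℂ RY z)) = _
    rw [AlgHom.commutes]
  · rintro c f ⟨n, a, hn, ha, hf⟩
    refine ⟨pull n, phi a, pull_supp c n hn, ?_, ?_⟩
    · rw [wt_pull]
      exact phi_gr _ _ ha
    · have h1 := congrArg (IsFractionRing.lift hinj) hf
      rw [map_mul, IsFractionRing.lift_algebraMap, IsFractionRing.lift_algebraMap] at h1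
      rw [← phi_mono]
      exact h1

end FCB
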