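import Pool.Agent.H30.FCB.StE
import Pool.Agent.H30.FCB.Basic

/-!
Module PPRO: the variety is proper and locally noetherian.
-/

open AlgebraicGeometry CategoryTheory

namespace FCB

theorem ppro (hVEFG : S_VEFG) : S_PPRO := by
  intro R ι C r _ _ _ _ D h
  obtain ⟨hft, hbij⟩ := hVEFG R ι C r D h
  have : IsScalarTower ℂ (D.verGr 0) D.ver := by
    refine IsScalarTower.of_algebraMap_eq (R := ℂ) (S := D.verGr 0) (A := D.ver) fun z => ?_
    rfl
  have : Algebra.FiniteType (D.verGr 0) D.ver :=
    Algebra.FiniteType.of_restrictScalars_finiteType ℂ (D.verGr 0) D.ver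
  have hp : IsProper D.projStr := by
    unfold Cox.projStr
    have h1 : IsProper (Proj.toSpecZero D.verGr) := inferInstance
    have hiso : IsIso (CommRingCat.ofHom (algebraMap ℂ (D.verGr 0)) :
        CommRingCat.of ℂ ⟶ CommRingCat.of (D.verGr 0)) := by
      rw [ConcreteCategory.isIso_iff_bijective]
      exact hbij
    have h2 : IsProper (Spec.map (CommRingCat.ofHom (algebraMap ℂ (D.verGr 0)) :
        CommRingCat.of ℂ ⟶ CommRingCat.of (D.verGr 0))) := inferInstance
    exact MorphismProperty.comp_mem _ _ _ h1 h2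
  refine ⟨hp, ?_⟩
  have : IsNoetherianRing (CommRingCat.of ℂ) := inferInstanceAs (IsNoetherianRing ℂ)
  have : IsLocallyNoetherian (Spec (CommRingCat.of ℂ)) := inferInstance
  exact LocallyOfFiniteType.isLocallyNoetherian D.projStr

end FCB
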