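import Pool.Agent.H30.FCB.StE
import Pool.Agent.H30.FCB.Basic

/-!
Module YCOV: the charts of `Y` cover.
-/

open MvPolynomial

namespace FCB

namespace YCOV

lemma mono_split {R ι C : Type} {r : ℕ} [CommRing R] [Algebra ℂ R] [Fintype ι] [DecidableEq ι]
    (D : Cox R ι C r) {V : Set R} (hV : D.IsVan V) (n : ι → ℕ) (hn : D.mono n ∉ V) (j : ι)
    (hj : n j ≠ 0) : D.X j ∉ V := by
  intro h
  apply hn
  have h1 : n = Pi.single j 1 + (n - Pi.single j 1) := by
    funext i
    by_cases hi : i = j
    · subst hi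
      simp only [Pi.add_apply, Pi.sub_apply, Pi.single_eq_same]
      omega
    · simp [Pi.single_eq_of_ne hi]
  rw [h1, D.mono_add, D.mono_single, pow_one]
  exact hV.ideal _ _ _ _ (D.X_mem j) (D.mono_mem _) h

end YCOV

theorem ycov : S_YCOV := by
  intro V hV
  obtain ⟨m, hm, n, hn, hout⟩ := hV.nonempty
  have hs := fun j hj => YCOV.mono_split DY hV n hout j hj
  have h0 := congrFun hn 0
  have h1 := congrFun hn 1
  have h2 := congrFun hn 2
  simp only [Cox.wt, sum_CY] at h0 h1 h2
  simp only [DY, degY, Pi.add_apply, Finset.sum_apply, Pi.smul_apply, Fin.sum_univ_succ] at h0 h1 h2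
  simp at h0 h1 h2
  have ht : ∃ i, n (.t i) ≠ 0 := by
    by_contra hcon
    push Not at hcon
    simp only [hcon] at h0 h1 h2
    simp at h0 h1 h2
    omega
  have hy : ∃ j, n (.y j) ≠ 0 := by
    by_contra hcon
    push Not at hcon
    simp only [hcon] at h0 h1 h2
    simp at h0 h1 h2
    omega
  have hz : n .o ≠ 0 ∨ n .z ≠ 0 := by
    by_contra hcon
    push Not at hcon
    obtain ⟨h3, h4⟩ := hcon
    simp only [h3, h4] at h0 h1 h2
    simp at h0 h1 h2
    omega
  obtain ⟨i, hi⟩ := ht
  obtain ⟨j, hj⟩ := hy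
  rcases hz with hz | hz
  · refine ⟨(i, j, 0), ?_⟩
    intro l hl
    have hl' : l ∈ uY (i, j, 0) := hl
    simp only [uY, Finset.mem_union, Finset.mem_insert, Finset.mem_singleton] at hl'
    rcases hl' with (rfl | rfl) | rfl
    · exact hs _ hi
    · exact hs _ hj
    · exact hs _ hz
  · refine ⟨(i, j, 1), ?_⟩
    intro l hl
    have hl' : l ∈ uY (i, j, 1) := hl
    simp only [uY, Finset.mem_union, Finset.mem_insert, Finset.mem_singleton] at hl'
    rcases hl' with (rfl | rfl) | rfl
    · exact hs _ hi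
    · exact hs _ hj
    · exact hs _ hz

end FCB
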